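import Pool.Agent.Helper492_BT.Tree2
import Pool.Agent.Helper492_GE.Mon
import Pool.Agent.H694.TR.Main

set_option autoImplicit false

/-!
`GL₂` of rings with one place at infinity.
-/

namespace Pool.Agent.Helper492_BT

open WithZero Pool.Agent.Y110.FJ Pool.Agent.R684.FP Pool.Agent.H694.TR Pool.Agent.Helper492_GE

section comm

variable {F : Type} [Field F]

/-- two unipotent matrices with unipotent product commute -/
theorem comm_of_unip (X Y : Matrix (Fin 2) (Fin 2) F) (hX : X 0 0 + X 1 1 = 2)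
    (dX : X 0 0 * X 1 1 - X 0 1 * X 1 0 = 1) (hY : Y 0 0 + Y 1 1 = 2)
    (dY : Y 0 0 * Y 1 1 - Y 0 1 * Y 1 0 = 1)
    (hXY : (X * Y) 0 0 + (X * Y) 1 1 = 2) : X * Y = Y * X := by
  obtain ⟨a, ha⟩ : ∃ a, a = X 0 0 - 1 := ⟨_, rfl⟩
  obtain ⟨b, hb⟩ : ∃ b, b = X 0 1 := ⟨_, rfl⟩
  obtain ⟨c, hc⟩ : ∃ c, c = X 1 0 := ⟨_, rfl⟩
  obtain ⟨a', ha'⟩ : ∃ a', a' = Y 0 0 - 1 := ⟨_, rfl⟩
  obtain ⟨b', hb'⟩ : ∃ b', b' = Y 0 1 := ⟨_, rfl⟩
  obtain ⟨c', hc'⟩ : ∃ c', c' = Y 1 0 := ⟨_, rfl⟩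
  have x00 : X 0 0 = 1 + a := by rw [ha]; ring
  have x11 : X 1 1 = 1 - a := by rw [ha]; linear_combination hX
  have y00 : Y 0 0 = 1 + a' := by rw [ha']; ring
  have y11 : Y 1 1 = 1 - a' := by rw [ha']; linear_combination hY
  rw [Matrix.mul_apply, Matrix.mul_apply, Fin.sum_univ_two, Fin.sum_univ_two, x00, x11, y00, y11,
    ← hb, ← hc, ← hb', ← hc'] at hXY
  rw [x00, x11, ← hb, ← hc] at dX
  rw [y00, y11, ← hb', ← hc'] at dY
  have e1 : a ^ 2 + b * c = 0 := by linear_combination -dX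
  have e2 : a' ^ 2 + b' * c' = 0 := by linear_combination -dY
  have e3 : 2 * a * a' + b * c' + c * b' = 0 := by linear_combination hXY
  have f1 : b * c' - b' * c = 0 := by
    have h1 : (b * c' - b' * c) ^ 2 = 0 := by
      linear_combination (b * c' + c * b' - 2 * a * a') * e3 + 4 * a' ^ 2 * e1 - 4 * b * c * e2
    exact pow_eq_zero_iff (two_ne_zero) |>.1 h1
  have f2 : a * b' - a' * b = 0 := by
    have h1 : (a * b' - a' * b) ^ 2 = 0 := by
      linear_combination b' ^ 2 * e1 + b ^ 2 * e2 - b * b' * e3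
    exact pow_eq_zero_iff (two_ne_zero) |>.1 h1
  have f3 : c * a' - a * c' = 0 := by
    have h1 : (c * a' - a * c') ^ 2 = 0 := by
      linear_combination c ^ 2 * e2 + c' ^ 2 * e1 - c * c' * e3
    exact pow_eq_zero_iff (two_ne_zero) |>.1 h1
  ext i j
  rw [Matrix.mul_apply, Matrix.mul_apply, Fin.sum_univ_two, Fin.sum_univ_two]
  have hi : i = 0 ∨ i = 1 := by omega
  have hj : j = 0 ∨ j = 1 := by omega
  rcases hi with rfl | rfl <;> rcases hj with rfl | rfl <;>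
    simp only [x00, x11, y00, y11, ← hb, ← hc, ← hb', ← hc']
  · linear_combination f1
  · linear_combination 2 * f2
  · linear_combination 2 * f3
  · linear_combination -f1

end comm

section act

variable {F A B : Type} [Field F] [CommRing A] [CommRing B] (v : Valuation F ℤᵐ⁰) (j : A →+* F)
  (β : A →+* B)

theorem dt_map (x : (Matrix (Fin 2) (Fin 2) A)ˣ) : dt (mapU j x) = j x.val.det := by
  rw [Matrix.det_fin_two, map_sub, map_mul, map_mul]
  rfl

theorem dd_map (hu : ∀ u : Aˣ, v (j u) = 1) (x : (Matrix (Fin 2) (Fin 2) A)ˣ) :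
    dd v (mapU j x) = 0 := by
  have h1 : IsUnit x.val.det := (Matrix.isUnit_iff_isUnit_det _).1 x.isUnit
  obtain ⟨u, hu'⟩ := h1
  rw [dd, dt_map, ← hu', hu, log_one]

/-- the action on the tree -/
@[reducible]
noncomputable def actV : MulAction (Matrix (Fin 2) (Fin 2) A)ˣ (Vx v) := MulAction.compHom (Vx v) (mapU j)

theorem treeAct (hu : ∀ u : Aˣ, v (j u) = 1) (ϖ : F) (hϖ : v ϖ = exp (-1)) :
    letI := actV v j
    TreeAct (Matrix (Fin 2) (Fin 2) A)ˣ (Vx v) (Tr v) := by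
  letI := actV v j
  have hsm : ∀ (γ : (Matrix (Fin 2) (Fin 2) A)ˣ) (g : (Matrix (Fin 2) (Fin 2) F)ˣ),
      γ • (QuotientGroup.mk g : Vx v) = QuotientGroup.mk (mapU j γ * g) := fun γ g => rfl
  refine ⟨isTree v ϖ hϖ, ?_, ?_⟩
  · intro γ x y hxy
    obtain ⟨g, rfl⟩ := QuotientGroup.mk_surjective x
    obtain ⟨h, rfl⟩ := QuotientGroup.mk_surjective y
    rw [adj_mk] at hxy
    rw [hsm, hsm, adj_mk]
    have h1 : (mapU j γ * g)⁻¹ * (mapU j γ * h) = g⁻¹ * h := by group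
    rw [h1]
    exact hxy
  · rintro γ x y hxy ⟨h1, -⟩
    have h2 := ht_adj v x y hxy
    obtain ⟨g, rfl⟩ := QuotientGroup.mk_surjective x
    obtain ⟨h, rfl⟩ := QuotientGroup.mk_surjective y
    rw [hsm, QuotientGroup.eq, mem_S] at h1
    have e1 := ht_mk v g
    have e2 := ht_mk v h
    have e3 : ll v g = 2 * mm v g - dd v g := rfl
    have e4 : ll v h = 2 * mm v h - dd v h := rfl
    have e5 : ll v ((mapU j γ * g)⁻¹ * h) = 2 * mm v ((mapU j γ * g)⁻¹ * h) -
      dd v ((mapU j γ * g)⁻¹ * h) := rfl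
    have e6 := dd_mul v (mapU j γ * g)⁻¹ h
    have e7 := dd_inv v (mapU j γ * g)
    have e8 := dd_mul v (mapU j γ) g
    have e9 := dd_map v j hu γ
    omega

theorem trace_conj (g X : (Matrix (Fin 2) (Fin 2) F)ˣ) :
    (g⁻¹ * X * g).val 0 0 + (g⁻¹ * X * g).val 1 1 = X.val 0 0 + X.val 1 1 := by
  have h1 : ((g⁻¹ * X * g).val).trace = (X.val).trace := by
    rw [Units.val_mul, Units.val_mul, Matrix.trace_mul_comm, ← mul_assoc, ← Units.val_mul,
      mul_inv_cancel, Units.val_one, one_mul]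
  rwa [Matrix.trace_fin_two, Matrix.trace_fin_two] at h1

/-- the elements of the kernel which fix a vertex are unipotent -/
theorem unip (hu : ∀ u : Aˣ, v (j u) = 1) (hβ : ∀ a, v (j a) ≤ 1 → β a = 0 → a = 0)
    (g : (Matrix (Fin 2) (Fin 2) F)ˣ) (x : (Matrix (Fin 2) (Fin 2) A)ˣ)
    (hx : (QuotientGroup.mk (mapU j x * g) : Vx v) = QuotientGroup.mk g) (hx1 : mapU β x = 1) :
    x.val 0 0 + x.val 1 1 = 2 ∧ x.val.det = 1 := by
  rw [eq_comm, QuotientGroup.eq, mem_S, ← mul_assoc] at hx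
  have e1 : ll v (g⁻¹ * mapU j x * g) = 2 * mm v (g⁻¹ * mapU j x * g) -
      dd v (g⁻¹ * mapU j x * g) := rfl
  have e2 := dd_mul v (g⁻¹ * mapU j x) g
  have e3 := dd_mul v g⁻¹ (mapU j x)
  have e4 := dd_inv v g
  have e5 := dd_map v j hu x
  have h0 : mm v (g⁻¹ * mapU j x * g) = 0 := by omega
  have hle : ∀ p q, v ((g⁻¹ * mapU j x * g).val p q) ≤ 1 := by
    intro p q
    have h1 := le_M v (g⁻¹ * mapU j x * g).val p q
    rw [exp_mm, h0, exp_zero] at h1
    exact h1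
  have hβx : ∀ p q, β (x.val p q) = (1 : Matrix (Fin 2) (Fin 2) B) p q := by
    intro p q
    rw [← mapU_val, hx1]
    rfl
  constructor
  · have h1 : j (x.val 0 0 + x.val 1 1 - 2) = ((g⁻¹ * mapU j x * g).val 0 0 +
        (g⁻¹ * mapU j x * g).val 1 1) - (1 + 1) := by
      rw [trace_conj, map_sub, map_add, mapU_val, mapU_val, map_ofNat]
      norm_num
    have h2 : v (j (x.val 0 0 + x.val 1 1 - 2)) ≤ 1 := by
      rw [h1]
      refine (Valuation.map_sub v _ _).trans (max_le ?_ ?_)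
      · exact v.map_add_le (hle _ _) (hle _ _)
      · exact v.map_add_le (by rw [map_one]) (by rw [map_one])
    have h3 : β (x.val 0 0 + x.val 1 1 - 2) = 0 := by
      rw [map_sub, map_add, hβx, hβx, Matrix.one_apply_eq, Matrix.one_apply_eq, map_ofNat]
      norm_num
    exact sub_eq_zero.1 (hβ _ h2 h3)
  · have hdet : IsUnit x.val.det := (Matrix.isUnit_iff_isUnit_det _).1 x.isUnit
    obtain ⟨u, hu'⟩ := hdet
    have h2 : v (j (x.val.det - 1)) ≤ 1 := by
      rw [map_sub, map_one]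
      refine (Valuation.map_sub v _ _).trans (max_le ?_ ?_)
      · rw [← hu', hu]
      · rw [map_one]
    have h3 : β (x.val.det - 1) = 0 := by
      rw [Matrix.det_fin_two, map_sub, map_sub, map_mul, map_mul, hβx, hβx, hβx, hβx,
        Matrix.one_apply_eq, Matrix.one_apply_eq, Matrix.one_apply_ne (by decide), map_one]
      ring
    exact sub_eq_zero.1 (hβ _ h2 h3)

variable {C : ∀ (G : Type) [Group G], Prop}

/-- **rings with one place at infinity** -/
theorem main_place (hC : ClosedE C) (hF : FbC C) (hS : ∀ (S : Type) [Group S], Group.IsSolvable S → C S)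
    (ϖ : F) (hϖ : v ϖ = exp (-1)) (hj : Function.Injective j)
    (hu : ∀ u : Aˣ, v (j u) = 1) (hβ : ∀ a, v (j a) ≤ 1 → β a = 0 → a = 0)
    (hB : C (Matrix (Fin 2) (Fin 2) B)ˣ) : C (Matrix (Fin 2) (Fin 2) A)ˣ := by
  letI := actV v j
  refine act_tree hC hF hS (treeAct v j hu ϖ hϖ) (mapU β) hB ?_
  intro w x y hx hy hx1 hy1
  obtain ⟨g, rfl⟩ := QuotientGroup.mk_surjective w
  have hsm : ∀ (γ : (Matrix (Fin 2) (Fin 2) A)ˣ),
      γ • (QuotientGroup.mk g : Vx v) = QuotientGroup.mk (mapU j γ * g) := fun γ => rfl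
  have hxy : (x * y) • (QuotientGroup.mk g : Vx v) = QuotientGroup.mk g := by
    rw [mul_smul, hy, hx]
  have hxy1 : mapU β (x * y) = 1 := by rw [map_mul, hx1, hy1, one_mul]
  rw [hsm] at hx hy hxy
  obtain ⟨tx, dx⟩ := unip v j β hu hβ g x hx hx1
  obtain ⟨ty, dy⟩ := unip v j β hu hβ g y hy hy1
  obtain ⟨txy, -⟩ := unip v j β hu hβ g (x * y) hxy hxy1
  apply mapU_inj hj
  rw [map_mul, map_mul]
  apply Units.ext
  rw [Units.val_mul, Units.val_mul]
  apply comm_of_unip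
  · rw [mapU_val, mapU_val, ← map_add, tx, map_ofNat]
  · rw [mapU_val, mapU_val, mapU_val, mapU_val, ← map_mul, ← map_mul, ← map_sub,
      ← Matrix.det_fin_two, dx, map_one]
  · rw [mapU_val, mapU_val, ← map_add, ty, map_ofNat]
  · rw [mapU_val, mapU_val, mapU_val, mapU_val, ← map_mul, ← map_mul, ← map_sub,
      ← Matrix.det_fin_two, dy, map_one]
  · rw [← Units.val_mul, ← map_mul, mapU_val, mapU_val, ← map_add, txy, map_ofNat]

end act

end Pool.Agent.Helper492_BT
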