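import Pool.Agent.Helper492_BT.Val
import Pool.Agent.Helper686_FJ.GLZ
import Pool.Agent.Helper686_FJ.Mv

set_option autoImplicit false

/-!
Weierstrass curves over the integers, and the Borel conjecture.
-/

namespace Pool.Agent.Helper492_BT

open WithZero Pool.Agent.Y110.FJ Pool.Agent.R684.FP Pool.Agent.Helper492_GE

/-- the assertion of the question for the closed aspherical manifolds with fundamental group `G` -/
def BorelFor (G : Type) [Group G] : Prop :=
  ∀ (d e : ℕ), 5 ≤ d → 5 ≤ e →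
    ∀ (M N : Type) [TopologicalSpace M] [TopologicalSpace N]
      [T2Space M] [T2Space N] [SecondCountableTopology M] [SecondCountableTopology N]
      [CompactSpace M] [CompactSpace N] [ConnectedSpace M] [ConnectedSpace N]
      [ChartedSpace (EuclideanSpace ℝ (Fin d)) M] [ChartedSpace (EuclideanSpace ℝ (Fin e)) N],
      (∀ n : ℕ, 2 ≤ n → ∀ x : M, Subsingleton (HomotopyGroup (Fin n) M x)) →
      (∀ n : ℕ, 2 ≤ n → ∀ y : N, Subsingleton (HomotopyGroup (Fin n) N y)) →
      (∃ (x : M) (y : N), Nonempty (FundamentalGroup M x ≃* G) ∧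
        Nonempty (FundamentalGroup N y ≃* G)) →
      Nonempty (M ≃ₜ N) ∧
        ∀ f : ContinuousMap.HomotopyEquiv M N,
          ∃ h : M ≃ₜ N, ContinuousMap.Homotopic f.toFun (ContinuousMap.mk h h.continuous)

/-- torsion-free groups -/
def TorFree (G : Type) [Group G] : Prop := ∀ (g : G) (n : ℕ), 0 < n → g ^ n = 1 → g = 1

variable {C : ∀ (G : Type) [Group G], Prop}

theorem wei (hC : ClosedE C) (hF : FbC C) (hS : ∀ (S : Type) [Group S], Group.IsSolvable S → C S)
    {R B : Type} [CommRing R] [IsDomain R] [CommRing B] (W : WeierstrassCurve.Affine R)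
    (β : W.CoordinateRing →+* B) (hβ : Function.Injective (β.comp (algebraMap R W.CoordinateRing)))
    (hB : C (Matrix (Fin 2) (Fin 2) B)ˣ) : C (Matrix (Fin 2) (Fin 2) W.CoordinateRing)ˣ :=
  main_val (place_wei W β hβ) hC hF hS hB

theorem gl_int (hC : ClosedE C) (hF : FbC C) (hS : ∀ (S : Type) [Group S], Group.IsSolvable S → C S)
    (σ : Type) : C (Matrix (Fin 2) (Fin 2) (MvPolynomial σ ℤ))ˣ :=
  (Pool.Agent.Helper686_FJ.GLP.g2_mv_iff hC hF hS σ ℤ).2 (Pool.Agent.Helper686_FJ.GLP.g2_int hC hF hS)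

theorem wei_int (hC : ClosedE C) (hF : FbC C) (hS : ∀ (S : Type) [Group S], Group.IsSolvable S → C S)
    (σ : Type) (W : WeierstrassCurve.Affine (MvPolynomial σ ℤ))
    (hW : Nonempty (W.CoordinateRing →ₐ[MvPolynomial σ ℤ] MvPolynomial σ ℤ)) :
    C (Matrix (Fin 2) (Fin 2) W.CoordinateRing)ˣ := by
  obtain ⟨β⟩ := hW
  refine wei hC hF hS W (β : W.CoordinateRing →+* MvPolynomial σ ℤ) ?_ (gl_int hC hF hS σ)
  intro x y h
  have h1 : ∀ z, ((β : W.CoordinateRing →+* MvPolynomial σ ℤ).comp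
      (algebraMap (MvPolynomial σ ℤ) W.CoordinateRing)) z = z := fun z => β.commutes z
  rwa [h1, h1] at h

theorem borel (hC : ClosedE C) (hF : FbC C) (hS : ∀ (S : Type) [Group S], Group.IsSolvable S → C S)
    (hQ : ∀ (G : Type) [Group G], TorFree G → C G → BorelFor G)
    {A B : Type} [CommRing A] [IsDomain A] [CommRing B] {v : Valuation A ℤᵐ⁰} {β : A →+* B}
    (h : Place v β) (H : Subgroup (Matrix (Fin 2) (Fin 2) B)ˣ) (hH : C H)
    {G : Type} [Group G] (f : G →* (Matrix (Fin 2) (Fin 2) A)ˣ) (hG : TorFree G)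
    (hf : Function.Injective f) (hfH : ∀ g, mapU β (f g) ∈ H) : BorelFor G := by
  refine hQ G hG (hC.base.of_injective _ _ (f.codRestrict (H.comap (mapU β)) hfH)
    (fun x y hxy => hf (congrArg Subtype.val hxy)) (rel_val h hC hF hS H hH))

end Pool.Agent.Helper492_BT
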