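import Mathlib

set_option autoImplicit false

/-!
Trees given by a height function; the tree of a field with a discrete valuation.
-/

namespace Pool.Agent.Helper492_BT

open WithZero

/-- a graph with a height function such that each vertex but the root has exactly one neighbour of
smaller height is a tree -/
theorem isTree_of_height {V : Type} (T : SimpleGraph V) (b : V) (ht : V → ℕ)
    (h0 : ∀ v, ht v = 0 → v = b)
    (hadj : ∀ u v, T.Adj u v → ht v = ht u + 1 ∨ ht u = ht v + 1)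
    (hpar : ∀ v, ht v ≠ 0 → ∃ u, T.Adj v u ∧ ht v = ht u + 1)
    (huniq : ∀ v u u', T.Adj v u → T.Adj v u' → ht v = ht u + 1 → ht v = ht u' + 1 → u = u') :
    T.IsTree := by
  classical
  have hreach : ∀ (n : ℕ) (v : V), ht v = n → T.Reachable v b := by
    intro n
    induction n with
    | zero =>
      intro v hv
      rw [h0 v hv]
    | succ n ih =>
      intro v hv
      obtain ⟨u, hu, huv⟩ := hpar v (by omega)
      exact hu.reachable.trans (ih u (by omega))
  have hne : Nonempty V := ⟨b⟩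
  refine ⟨⟨fun u v => (hreach _ u rfl).trans (hreach _ v rfl).symm⟩, ?_⟩
  intro v c hc
  obtain ⟨u, hu, hmax⟩ := Finset.exists_max_image c.support.toFinset ht
    ⟨v, by rw [List.mem_toFinset]; exact c.start_mem_support⟩
  rw [List.mem_toFinset] at hu
  have hc' : (c.rotate u hu).IsCycle := hc.rotate hu
  have hmem : ∀ w ∈ (c.rotate u hu).support, ht w ≤ ht u := by
    intro w hw
    rw [SimpleGraph.Walk.mem_support_rotate_iff] at hw
    exact hmax w (by rw [List.mem_toFinset]; exact hw)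
  have hnn : ¬ (c.rotate u hu).Nil := hc'.not_nil
  have h1 : T.Adj u (c.rotate u hu).snd := SimpleGraph.Walk.adj_snd hnn
  have h2 : T.Adj u (c.rotate u hu).penultimate := (SimpleGraph.Walk.adj_penultimate hnn).symm
  have h3 := hmem _ (SimpleGraph.Walk.snd_mem_support_of_mem_edges _ (SimpleGraph.Walk.mk_start_snd_mem_edges hnn))
  have h4 := hmem _ (SimpleGraph.Walk.getVert_mem_support (c.rotate u hu) ((c.rotate u hu).length - 1))
  refine hc'.snd_ne_penultimate (huniq u _ _ h1 h2 ?_ ?_)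
  · rcases hadj _ _ h1 with h | h
    · omega
    · exact h
  · rcases hadj _ _ h2 with h | h
    · have h5 : ht (c.rotate u hu).penultimate ≤ ht u := h4
      omega
    · exact h

section M

variable {F : Type} [Field F] (v : Valuation F ℤᵐ⁰)

/-- the largest value of an entry -/
noncomputable def M (A : Matrix (Fin 2) (Fin 2) F) : ℤᵐ⁰ :=
  Finset.univ.sup fun ij : Fin 2 × Fin 2 => v (A ij.1 ij.2)

theorem le_M (A : Matrix (Fin 2) (Fin 2) F) (i j : Fin 2) : v (A i j) ≤ M v A :=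
  Finset.le_sup (f := fun ij : Fin 2 × Fin 2 => v (A ij.1 ij.2)) (Finset.mem_univ (i, j))

theorem M_le {A : Matrix (Fin 2) (Fin 2) F} {c : ℤᵐ⁰} (h : ∀ i j, v (A i j) ≤ c) : M v A ≤ c :=
  Finset.sup_le fun ij _ => h ij.1 ij.2

theorem exists_M (A : Matrix (Fin 2) (Fin 2) F) : ∃ i j, v (A i j) = M v A := by
  obtain ⟨ij, _, h⟩ := Finset.exists_mem_eq_sup Finset.univ Finset.univ_nonempty
    (fun ij : Fin 2 × Fin 2 => v (A ij.1 ij.2))
  exact ⟨ij.1, ij.2, h.symm⟩

theorem M_mul (A B : Matrix (Fin 2) (Fin 2) F) : M v (A * B) ≤ M v A * M v B := by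
  apply M_le
  intro i j
  rw [Matrix.mul_apply, Fin.sum_univ_two]
  refine v.map_add_le ?_ ?_
  · rw [map_mul]
    exact mul_le_mul' (le_M v A _ _) (le_M v B _ _)
  · rw [map_mul]
    exact mul_le_mul' (le_M v A _ _) (le_M v B _ _)

theorem M_one : M v (1 : Matrix (Fin 2) (Fin 2) F) = 1 := by
  refine le_antisymm (M_le v fun i j => ?_) ?_
  · rw [Matrix.one_apply]
    split_ifs
    · rw [map_one]
    · rw [map_zero]
      exact zero_le_one
  · have h := le_M v (1 : Matrix (Fin 2) (Fin 2) F) 0 0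
    rwa [Matrix.one_apply_eq, map_one] at h

variable (g h : (Matrix (Fin 2) (Fin 2) F)ˣ)

/-- the determinant -/
def dt : F := g.val 0 0 * g.val 1 1 - g.val 0 1 * g.val 1 0

theorem dt_eq : dt g = g.val.det := (Matrix.det_fin_two g.val).symm

theorem dt_ne : dt g ≠ 0 := by
  rw [dt_eq]
  exact ((Matrix.isUnit_iff_isUnit_det _).1 g.isUnit).ne_zero

theorem dt_mul : dt (g * h) = dt g * dt h := by
  rw [dt_eq, dt_eq, dt_eq, Units.val_mul, Matrix.det_mul]

theorem dt_one : dt (1 : (Matrix (Fin 2) (Fin 2) F)ˣ) = 1 := by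
  rw [dt_eq, Units.val_one, Matrix.det_one]

theorem inv_mul_dt : (g⁻¹).val 0 0 * dt g = g.val 1 1 ∧ (g⁻¹).val 0 1 * dt g = -g.val 0 1 ∧
    (g⁻¹).val 1 0 * dt g = -g.val 1 0 ∧ (g⁻¹).val 1 1 * dt g = g.val 0 0 := by
  have h1 : (g⁻¹).val * g.val = 1 := g.inv_mul
  have h2 : ∀ i j, (g⁻¹).val i 0 * g.val 0 j + (g⁻¹).val i 1 * g.val 1 j =
      (1 : Matrix (Fin 2) (Fin 2) F) i j := by
    intro i j
    rw [← h1, Matrix.mul_apply, Fin.sum_univ_two]
  have e00 := h2 0 0
  have e01 := h2 0 1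
  have e10 := h2 1 0
  have e11 := h2 1 1
  rw [Matrix.one_apply_eq] at e00 e11
  rw [Matrix.one_apply_ne (by decide)] at e01 e10
  unfold dt
  refine ⟨?_, ?_, ?_, ?_⟩
  · linear_combination g.val 1 1 * e00 - g.val 1 0 * e01
  · linear_combination -g.val 0 1 * e00 + g.val 0 0 * e01
  · linear_combination g.val 1 1 * e10 - g.val 1 0 * e11
  · linear_combination -g.val 0 1 * e10 + g.val 0 0 * e11

theorem M_inv : M v (g⁻¹).val * v (dt g) = M v g.val := by
  obtain ⟨h00, h01, h10, h11⟩ := inv_mul_dt g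
  have hd : v (dt g) ≠ 0 := (Valuation.ne_zero_iff v).2 (dt_ne g)
  apply le_antisymm
  · rw [← le_div_iff₀ (zero_lt_iff.2 hd)]
    apply M_le
    intro i j
    rw [le_div_iff₀ (zero_lt_iff.2 hd), ← map_mul]
    revert i j
    rw [Fin.forall_fin_two]
    refine ⟨?_, ?_⟩ <;> rw [Fin.forall_fin_two]
    · rw [h00, h01, Valuation.map_neg]
      exact ⟨le_M v _ _ _, le_M v _ _ _⟩
    · rw [h10, h11, Valuation.map_neg]
      exact ⟨le_M v _ _ _, le_M v _ _ _⟩
  · apply M_le
    intro i j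
    revert i j
    rw [Fin.forall_fin_two]
    refine ⟨?_, ?_⟩ <;> rw [Fin.forall_fin_two]
    · refine ⟨?_, ?_⟩
      · rw [← h11, map_mul]
        exact mul_le_mul_left (le_M v _ _ _) _
      · rw [← Valuation.map_neg v (g.val 0 1), ← h01, map_mul]
        exact mul_le_mul_left (le_M v _ _ _) _
    · refine ⟨?_, ?_⟩
      · rw [← Valuation.map_neg v (g.val 1 0), ← h10, map_mul]
        exact mul_le_mul_left (le_M v _ _ _) _
      · rw [← h00, map_mul]
        exact mul_le_mul_left (le_M v _ _ _) _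

theorem M_ne : M v g.val ≠ 0 := by
  intro h0
  have h1 := M_mul v g.val (g⁻¹).val
  rw [Units.mul_inv, M_one, h0, zero_mul] at h1
  exact absurd h1 (not_le.2 zero_lt_one)

end M

section l

variable {F : Type} [Field F] (v : Valuation F ℤᵐ⁰) (g h : (Matrix (Fin 2) (Fin 2) F)ˣ)

/-- the value of the determinant -/
noncomputable def dd : ℤ := log (v (dt g))

/-- the logarithm of the largest value of an entry -/
noncomputable def mm : ℤ := log (M v g.val)

/-- the distance from the base vertex -/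
noncomputable def ll : ℤ := 2 * mm v g - dd v g

theorem vdt_ne : v (dt g) ≠ 0 := (Valuation.ne_zero_iff v).2 (dt_ne g)

theorem dd_mul : dd v (g * h) = dd v g + dd v h := by
  rw [dd, dt_mul, map_mul, log_mul (vdt_ne v g) (vdt_ne v h)]
  rfl

theorem dd_one : dd v (1 : (Matrix (Fin 2) (Fin 2) F)ˣ) = 0 := by
  rw [dd, dt_one, map_one, log_one]

theorem dd_inv : dd v g⁻¹ = -dd v g := by
  have h1 := dd_mul v g g⁻¹
  rw [mul_inv_cancel, dd_one] at h1
  omega

theorem mm_inv : mm v g⁻¹ = mm v g - dd v g := by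
  have h1 := congrArg log (M_inv v g)
  rw [log_mul (M_ne v g⁻¹) (vdt_ne v g)] at h1
  unfold mm dd
  omega

theorem mm_mul : mm v (g * h) ≤ mm v g + mm v h := by
  unfold mm
  rw [← log_mul (M_ne v g) (M_ne v h), log_le_log (M_ne v _) (mul_ne_zero (M_ne v g) (M_ne v h))]
  exact M_mul v g.val h.val

theorem ll_eq : ll v g = mm v g + mm v g⁻¹ := by
  rw [mm_inv, ll]
  ring

theorem ll_mul : ll v (g * h) ≤ ll v g + ll v h := by
  have h1 := mm_mul v g h
  have h2 := dd_mul v g h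
  unfold ll
  omega

theorem mm_one : mm v (1 : (Matrix (Fin 2) (Fin 2) F)ˣ) = 0 := by
  rw [mm, Units.val_one, M_one, log_one]

theorem ll_one : ll v (1 : (Matrix (Fin 2) (Fin 2) F)ˣ) = 0 := by
  rw [ll, mm_one, dd_one]
  rfl

theorem ll_nonneg : 0 ≤ ll v g := by
  have h1 := mm_mul v g g⁻¹
  rw [mul_inv_cancel, mm_one] at h1
  rw [ll_eq]
  exact h1

theorem ll_inv : ll v g⁻¹ = ll v g := by
  rw [ll_eq, ll_eq, inv_inv]
  ring

/-- the stabilizer of the base vertex -/
noncomputable def S : Subgroup (Matrix (Fin 2) (Fin 2) F)ˣ where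
  carrier := {g | ll v g = 0}
  one_mem' := ll_one v
  mul_mem' := by
    intro a b ha hb
    have h1 := ll_mul v a b
    have h2 := ll_nonneg v (a * b)
    have ha' : ll v a = 0 := ha
    have hb' : ll v b = 0 := hb
    change ll v (a * b) = 0
    omega
  inv_mem' := by
    intro a ha
    change ll v a⁻¹ = 0
    rw [ll_inv]
    exact ha

theorem mem_S : g ∈ S v ↔ ll v g = 0 := Iff.rfl

theorem ll_mul_S {s : (Matrix (Fin 2) (Fin 2) F)ˣ} (hs : s ∈ S v) : ll v (g * s) = ll v g := by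
  have h1 := ll_mul v g s
  have h2 := ll_mul v (g * s) s⁻¹
  rw [ll_inv, mul_inv_cancel_right] at h2
  rw [mem_S] at hs
  omega

theorem ll_S_mul {s : (Matrix (Fin 2) (Fin 2) F)ˣ} (hs : s ∈ S v) : ll v (s * g) = ll v g := by
  rw [← ll_inv, mul_inv_rev, ll_mul_S v g⁻¹ (inv_mem hs), ll_inv]

/-- the vertices of the tree -/
abbrev Vx : Type := (Matrix (Fin 2) (Fin 2) F)ˣ ⧸ S v

/-- the tree -/
def Tr : SimpleGraph (Vx v) where
  Adj x y := ∃ g h : (Matrix (Fin 2) (Fin 2) F)ˣ, x = QuotientGroup.mk g ∧ y = QuotientGroup.mk h ∧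
    ll v (g⁻¹ * h) = 1
  symm := ⟨by
    rintro x y ⟨g, h, hx, hy, hgh⟩
    refine ⟨h, g, hy, hx, ?_⟩
    rw [← ll_inv, mul_inv_rev, inv_inv]
    exact hgh⟩
  loopless := ⟨by
    rintro x ⟨g, h, hx, hy, hgh⟩
    rw [hx, QuotientGroup.eq, mem_S] at hy
    omega⟩

theorem adj_mk : (Tr v).Adj (QuotientGroup.mk g) (QuotientGroup.mk h) ↔ ll v (g⁻¹ * h) = 1 := by
  constructor
  · rintro ⟨g', h', hx, hy, hgh⟩
    rw [QuotientGroup.eq] at hx hy
    have h1 : g⁻¹ * h = (g⁻¹ * g') * (g'⁻¹ * h') * (h⁻¹ * h')⁻¹ := by group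
    rw [h1, ll_mul_S v _ (inv_mem hy), ll_S_mul v _ hx]
    exact hgh
  · intro hgh
    exact ⟨g, h, rfl, rfl, hgh⟩

/-- the height of a vertex -/
noncomputable def ht (x : Vx v) : ℕ := (ll v x.out).toNat

theorem ht_mk : (ht v (QuotientGroup.mk g) : ℤ) = ll v g := by
  have h1 : (QuotientGroup.mk (QuotientGroup.mk g : Vx v).out : Vx v) = QuotientGroup.mk g :=
    QuotientGroup.out_eq' _
  rw [QuotientGroup.eq] at h1
  have h2 : g = (QuotientGroup.mk g : Vx v).out * ((QuotientGroup.mk g : Vx v).out⁻¹ * g) := by group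
  rw [ht, Int.toNat_of_nonneg (ll_nonneg v _)]
  conv_rhs => rw [h2]
  rw [ll_mul_S v _ h1]

end l

end Pool.Agent.Helper492_BT
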