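import Pool.Agent.Helper492_BT.Tree

set_option autoImplicit false

/-!
The graph of the classes of lattices of the plane over a field with a discrete valuation is a tree.
-/

namespace Pool.Agent.Helper492_BT

open WithZero

section l

variable {F : Type} [Field F] (v : Valuation F ℤᵐ⁰) (g h : (Matrix (Fin 2) (Fin 2) F)ˣ)

theorem ht_adj (x y : Vx v) (hxy : (Tr v).Adj x y) : ht v y = ht v x + 1 ∨ ht v x = ht v y + 1 := by
  obtain ⟨g, h, rfl, rfl, hgh⟩ := hxy
  have h1 := ll_mul v g (g⁻¹ * h)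
  rw [mul_inv_cancel_left] at h1
  have h2 := ll_mul v h (g⁻¹ * h)⁻¹
  have h3 : h * (g⁻¹ * h)⁻¹ = g := by group
  rw [h3, ll_inv] at h2
  have h4 := dd_mul v g (g⁻¹ * h)
  rw [mul_inv_cancel_left] at h4
  have e1 : ll v (g⁻¹ * h) = 2 * mm v (g⁻¹ * h) - dd v (g⁻¹ * h) := rfl
  have e2 : ll v g = 2 * mm v g - dd v g := rfl
  have e3 : ll v h = 2 * mm v h - dd v h := rfl
  have f1 := ht_mk v g
  have f2 := ht_mk v h
  omega

theorem exp_mm : M v g.val = exp (mm v g) := (exp_log (M_ne v g)).symm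

theorem exp_dd : v (dt g) = exp (dd v g) := (exp_log (vdt_ne v g)).symm

theorem mm_le {c : ℤ} (hc : ∀ i j, v (g.val i j) ≤ exp c) : mm v g ≤ c := by
  have h1 := M_le v hc
  rw [exp_mm, exp_le_exp] at h1
  exact h1

/-- existence of a neighbour of smaller height, if the first entry is the largest one -/
theorem exists_low (ϖ : F) (hϖ : v ϖ = exp (-1)) (hg : v (g.val 0 0) = M v g.val)
    (hl : 1 ≤ ll v g) : ∃ k, ll v k = 1 ∧ ll v (g * k) = ll v g - 1 := by
  have hϖ0 : ϖ ≠ 0 := by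
    rintro rfl
    rw [map_zero] at hϖ
    exact exp_ne_zero hϖ.symm
  have h00 : g.val 0 0 ≠ 0 := by
    intro h0
    rw [h0, map_zero] at hg
    exact M_ne v g hg.symm
  obtain ⟨a, ha⟩ : ∃ a, a = g.val 0 1 / g.val 0 0 := ⟨_, rfl⟩
  let k : (Matrix (Fin 2) (Fin 2) F)ˣ :=
    { val := !![-a, ϖ; 1, 0]
      inv := !![0, 1; ϖ⁻¹, a * ϖ⁻¹]
      val_inv := by
        rw [Matrix.mul_fin_two, Matrix.one_fin_two]
        congr 1
        ext i j
        fin_cases i <;> fin_cases j <;> simp [mul_inv_cancel₀ hϖ0]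
        field_simp
        ring
      inv_val := by
        rw [Matrix.mul_fin_two, Matrix.one_fin_two]
        congr 1
        ext i j
        fin_cases i <;> fin_cases j <;> simp [inv_mul_cancel₀ hϖ0]
        field_simp
        ring }
  have k00 : k.val 0 0 = -a := rfl
  have k01 : k.val 0 1 = ϖ := rfl
  have k10 : k.val 1 0 = 1 := rfl
  have k11 : k.val 1 1 = 0 := rfl
  have hdt : dt k = -ϖ := by
    rw [dt, k00, k01, k10, k11]
    ring
  have hdd : dd v k = -1 := by
    rw [dd, hdt, Valuation.map_neg, hϖ, log_exp]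
  have hva : v a ≤ 1 := by
    rw [ha, map_div₀, hg]
    exact div_le_one_of_le₀ (le_M v _ _ _) zero_le
  have hmk : mm v k = 0 := by
    apply le_antisymm
    · apply mm_le
      rw [exp_zero]
      rw [Fin.forall_fin_two]
      refine ⟨?_, ?_⟩ <;> rw [Fin.forall_fin_two]
      · refine ⟨by rw [k00, Valuation.map_neg]; exact hva, ?_⟩
        rw [k01, hϖ, ← exp_zero, exp_le_exp]
        omega
      · refine ⟨by rw [k10, map_one], ?_⟩
        rw [k11, map_zero]
        exact zero_le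
    · have h1 := le_M v k.val 1 0
      rw [k10, map_one, exp_mm, ← exp_zero, exp_le_exp] at h1
      exact h1
  have hlk : ll v k = 1 := by
    rw [ll, hmk, hdd]
    rfl
  refine ⟨k, hlk, ?_⟩
  have hval : ∀ i j, (g * k).val i j = g.val i 0 * k.val 0 j + g.val i 1 * k.val 1 j := by
    intro i j
    rw [Units.val_mul, Matrix.mul_apply, Fin.sum_univ_two]
  have h1 : mm v (g * k) ≤ mm v g - 1 := by
    have hb : ∀ x : F, v x ≤ M v g.val → v (x * ϖ) ≤ exp (mm v g - 1) := by
      intro x hx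
      rw [map_mul, hϖ, sub_eq_add_neg, exp_add, ← exp_mm]
      exact mul_le_mul_left hx _
    apply mm_le
    rw [Fin.forall_fin_two]
    refine ⟨?_, ?_⟩ <;> rw [Fin.forall_fin_two]
    · refine ⟨?_, ?_⟩
      · rw [hval, k00, k10, ha]
        have h2 : g.val 0 0 * -(g.val 0 1 / g.val 0 0) + g.val 0 1 * 1 = 0 := by
          field_simp
          ring
        rw [h2, map_zero]
        exact zero_le
      · rw [hval, k01, k11, mul_zero, add_zero]
        exact hb _ (le_M v _ _ _)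
    · refine ⟨?_, ?_⟩
      · rw [hval, k00, k10, ha]
        have h2 : g.val 1 0 * -(g.val 0 1 / g.val 0 0) + g.val 1 1 * 1 = dt g / g.val 0 0 := by
          rw [dt]
          field_simp
          ring
        rw [h2, map_div₀, hg, exp_mm, exp_dd, ← exp_sub, exp_le_exp]
        unfold ll at hl
        omega
      · rw [hval, k01, k11, mul_zero, add_zero]
        exact hb _ (le_M v _ _ _)
  have h2 := ll_mul v (g * k) k⁻¹
  rw [mul_inv_cancel_right, ll_inv, hlk] at h2
  have h3 := dd_mul v g k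
  have h4 : ll v (g * k) = 2 * mm v (g * k) - dd v (g * k) := rfl
  have h5 : ll v g = 2 * mm v g - dd v g := rfl
  omega

/-- the exchange of the vectors of the basis -/
def sw (F : Type) [Field F] : (Matrix (Fin 2) (Fin 2) F)ˣ where
  val := !![0, 1; 1, 0]
  inv := !![0, 1; 1, 0]
  val_inv := by rw [Matrix.mul_fin_two, Matrix.one_fin_two]; simp
  inv_val := by rw [Matrix.mul_fin_two, Matrix.one_fin_two]; simp

theorem sw_M : M v (sw F).val ≤ 1 := by
  apply M_le
  rw [Fin.forall_fin_two]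
  refine ⟨?_, ?_⟩ <;> rw [Fin.forall_fin_two]
  · refine ⟨?_, ?_⟩
    · change v 0 ≤ 1
      rw [map_zero]
      exact zero_le
    · change v 1 ≤ 1
      rw [map_one]
  · refine ⟨?_, ?_⟩
    · change v 1 ≤ 1
      rw [map_one]
    · change v 0 ≤ 1
      rw [map_zero]
      exact zero_le

theorem sw_S : sw F ∈ S v := by
  have h1 : dt (sw F) = -1 := by
    change (0 : F) * 0 - 1 * 1 = -1
    ring
  have h2 : dd v (sw F) = 0 := by rw [dd, h1, Valuation.map_neg, map_one, log_one]
  have h3 := sw_M (F := F) v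
  rw [exp_mm, ← exp_zero, exp_le_exp] at h3
  have h4 := ll_nonneg v (sw F)
  have h5 : ll v (sw F) = 2 * mm v (sw F) - dd v (sw F) := rfl
  rw [mem_S]
  omega

theorem exists_low' (ϖ : F) (hϖ : v ϖ = exp (-1)) {a b : (Matrix (Fin 2) (Fin 2) F)ˣ}
    (ha : a ∈ S v) (hb : b ∈ S v) (ha' : M v a.val ≤ 1) (hb' : M v b.val ≤ 1)
    (hg : v ((a * g * b).val 0 0) = M v g.val)
    (hl : 1 ≤ ll v g) : ∃ k, ll v k = 1 ∧ ll v (g * k) = ll v g - 1 := by
  have h1 : ll v (a * g * b) = ll v g := by rw [ll_mul_S v _ hb, ll_S_mul v _ ha]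
  have h2 : v ((a * g * b).val 0 0) = M v (a * g * b).val := by
    apply le_antisymm (le_M v _ _ _)
    rw [hg]
    calc M v (a * g * b).val ≤ M v (a * g).val * M v b.val := M_mul v _ _
      _ ≤ M v (a * g).val * 1 := mul_le_mul_right hb' _
      _ = M v (a * g).val := mul_one _
      _ ≤ M v a.val * M v g.val := M_mul v _ _
      _ ≤ 1 * M v g.val := mul_le_mul_left ha' _
      _ = M v g.val := one_mul _
  obtain ⟨k, hk, hk'⟩ := exists_low v (a * g * b) ϖ hϖ h2 (by rw [h1]; exact hl)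
  refine ⟨b * k, by rw [ll_S_mul v _ hb]; exact hk, ?_⟩
  have h3 : a * g * b * k = a * (g * (b * k)) := by group
  rw [h3, ll_S_mul v _ ha, h1] at hk'
  exact hk'

theorem exists_par (ϖ : F) (hϖ : v ϖ = exp (-1)) (hl : 1 ≤ ll v g) :
    ∃ k, ll v k = 1 ∧ ll v (g * k) = ll v g - 1 := by
  obtain ⟨i, j, hij⟩ := exists_M v g.val
  have h1 : M v (1 : (Matrix (Fin 2) (Fin 2) F)ˣ).val ≤ 1 := by
    rw [Units.val_one, M_one]
  have key : ∀ (a b : (Matrix (Fin 2) (Fin 2) F)ˣ), (a * g * b).val 0 0 =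
      (a.val 0 0 * g.val 0 0 + a.val 0 1 * g.val 1 0) * b.val 0 0 +
      (a.val 0 0 * g.val 0 1 + a.val 0 1 * g.val 1 1) * b.val 1 0 := by
    intro a b
    rw [Units.val_mul, Units.val_mul, Matrix.mul_apply, Fin.sum_univ_two, Matrix.mul_apply,
      Matrix.mul_apply, Fin.sum_univ_two, Fin.sum_univ_two]
  have o00 : (1 : (Matrix (Fin 2) (Fin 2) F)ˣ).val 0 0 = 1 := by
    rw [Units.val_one, Matrix.one_apply_eq]
  have o01 : (1 : (Matrix (Fin 2) (Fin 2) F)ˣ).val 0 1 = 0 := by
    rw [Units.val_one, Matrix.one_apply_ne (by decide)]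
  have o10 : (1 : (Matrix (Fin 2) (Fin 2) F)ˣ).val 1 0 = 0 := by
    rw [Units.val_one, Matrix.one_apply_ne (by decide)]
  have s00 : (sw F).val 0 0 = 0 := rfl
  have s01 : (sw F).val 0 1 = 1 := rfl
  have s10 : (sw F).val 1 0 = 1 := rfl
  have hi : i = 0 ∨ i = 1 := by omega
  have hj : j = 0 ∨ j = 1 := by omega
  rcases hi with rfl | rfl <;> rcases hj with rfl | rfl
  · refine exists_low' v g ϖ hϖ (one_mem _) (one_mem _) h1 h1 ?_ hl
    rw [key, o00, o01, o10, ← hij]
    congr 1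
    ring
  · refine exists_low' v g ϖ hϖ (one_mem _) (sw_S v) h1 (sw_M v) ?_ hl
    rw [key, o00, o01, s00, s10, ← hij]
    congr 1
    ring
  · refine exists_low' v g ϖ hϖ (sw_S v) (one_mem _) (sw_M v) h1 ?_ hl
    rw [key, o00, o10, s00, s01, ← hij]
    congr 1
    ring
  · refine exists_low' v g ϖ hϖ (sw_S v) (sw_S v) (sw_M v) (sw_M v) ?_ hl
    rw [key, s00, s01, s10, ← hij]
    congr 1
    ring

theorem uniq_par (k k' : (Matrix (Fin 2) (Fin 2) F)ˣ) (hk : ll v k = 1) (hk' : ll v k' = 1)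
    (h1 : ll v (g * k) = ll v g - 1) (h2 : ll v (g * k') = ll v g - 1) : ll v (k⁻¹ * k') = 0 := by
  have e0 : ll v g = 2 * mm v g - dd v g := rfl
  have e1 : ll v k = 2 * mm v k - dd v k := rfl
  have e2 : ll v k' = 2 * mm v k' - dd v k' := rfl
  have e3 : ll v (g * k) = 2 * mm v (g * k) - dd v (g * k) := rfl
  have e4 : ll v (g * k') = 2 * mm v (g * k') - dd v (g * k') := rfl
  have d1 := dd_mul v g k
  have d2 := dd_mul v g k'
  have m1 : mm v (g * k) = -1 + mm v g + mm v k := by omega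
  have m2 : mm v (g * k') = -1 + mm v g + mm v k' := by omega
  obtain ⟨i, j, hij⟩ := exists_M v g.val
  have hval : ∀ (k : (Matrix (Fin 2) (Fin 2) F)ˣ) (p : Fin 2),
      (g * k).val i p = g.val i 0 * k.val 0 p + g.val i 1 * k.val 1 p := by
    intro k p
    rw [Units.val_mul, Matrix.mul_apply, Fin.sum_univ_two]
  have b1 : ∀ p, v (g.val i 0 * k.val 0 p + g.val i 1 * k.val 1 p) ≤ exp (-1 + mm v g + mm v k) := by
    intro p
    rw [← hval, ← m1, ← exp_mm]
    exact le_M v _ _ _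
  have b2 : ∀ q, v (g.val i 0 * k'.val 0 q + g.val i 1 * k'.val 1 q) ≤
      exp (-1 + mm v g + mm v k') := by
    intro q
    rw [← hval, ← m2, ← exp_mm]
    exact le_M v _ _ _
  have c1 : ∀ a b, v (k.val a b) ≤ exp (mm v k) := fun a b => by
    rw [← exp_mm]
    exact le_M v _ _ _
  have c2 : ∀ a b, v (k'.val a b) ≤ exp (mm v k') := fun a b => by
    rw [← exp_mm]
    exact le_M v _ _ _
  -- the determinants of two columns
  have hδ : ∀ p q, v (k.val 0 p * k'.val 1 q - k.val 1 p * k'.val 0 q) ≤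
      exp (-1 + mm v k + mm v k') := by
    intro p q
    have hs : exp (-1 + mm v g + mm v k + mm v k') =
        exp (-1 + mm v g + mm v k) * exp (mm v k') := exp_add _ _
    have hs' : exp (-1 + mm v g + mm v k + mm v k') =
        exp (-1 + mm v g + mm v k') * exp (mm v k) := by
      rw [← exp_add]
      congr 1
      ring
    have f0 : v (g.val i 0 * (k.val 0 p * k'.val 1 q - k.val 1 p * k'.val 0 q)) ≤
        exp (-1 + mm v g + mm v k + mm v k') := by
      have h3 : g.val i 0 * (k.val 0 p * k'.val 1 q - k.val 1 p * k'.val 0 q) =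
          (g.val i 0 * k.val 0 p + g.val i 1 * k.val 1 p) * k'.val 1 q -
          (g.val i 0 * k'.val 0 q + g.val i 1 * k'.val 1 q) * k.val 1 p := by ring
      rw [h3]
      refine (Valuation.map_sub v _ _).trans (max_le ?_ ?_)
      · rw [map_mul, hs]
        exact mul_le_mul' (b1 p) (c2 _ _)
      · rw [map_mul, hs']
        exact mul_le_mul' (b2 q) (c1 _ _)
    have f1 : v (g.val i 1 * (k.val 0 p * k'.val 1 q - k.val 1 p * k'.val 0 q)) ≤
        exp (-1 + mm v g + mm v k + mm v k') := by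
      have h3 : g.val i 1 * (k.val 0 p * k'.val 1 q - k.val 1 p * k'.val 0 q) =
          (g.val i 0 * k'.val 0 q + g.val i 1 * k'.val 1 q) * k.val 0 p -
          (g.val i 0 * k.val 0 p + g.val i 1 * k.val 1 p) * k'.val 0 q := by ring
      rw [h3]
      refine (Valuation.map_sub v _ _).trans (max_le ?_ ?_)
      · rw [map_mul, hs']
        exact mul_le_mul' (b2 q) (c1 _ _)
      · rw [map_mul, hs]
        exact mul_le_mul' (b1 p) (c2 _ _)
    have f2 : v (g.val i j * (k.val 0 p * k'.val 1 q - k.val 1 p * k'.val 0 q)) ≤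
        exp (-1 + mm v g + mm v k + mm v k') := by
      have hj : j = 0 ∨ j = 1 := by omega
      rcases hj with rfl | rfl
      · exact f0
      · exact f1
    rw [map_mul, hij, exp_mm] at f2
    have h4 : exp (-1 + mm v g + mm v k + mm v k') =
        exp (mm v g) * exp (-1 + mm v k + mm v k') := by
      rw [← exp_add]
      congr 1
      ring
    rw [h4] at f2
    exact (mul_le_mul_iff_right₀ exp_pos).1 f2
  obtain ⟨i00, i01, i10, i11⟩ := inv_mul_dt k
  have hM : M v (k⁻¹ * k').val * v (dt k) ≤ exp (-1 + mm v k + mm v k') := by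
    rw [← le_div_iff₀ (zero_lt_iff.2 (vdt_ne v k))]
    apply M_le
    intro p q
    rw [le_div_iff₀ (zero_lt_iff.2 (vdt_ne v k)), ← map_mul]
    have h3 : (k⁻¹ * k').val p q = (k⁻¹).val p 0 * k'.val 0 q + (k⁻¹).val p 1 * k'.val 1 q := by
      rw [Units.val_mul, Matrix.mul_apply, Fin.sum_univ_two]
    rw [h3]
    have hp : p = 0 ∨ p = 1 := by omega
    rcases hp with rfl | rfl
    · have h4 : ((k⁻¹).val 0 0 * k'.val 0 q + (k⁻¹).val 0 1 * k'.val 1 q) * dt k =
          -(k.val 0 1 * k'.val 1 q - k.val 1 1 * k'.val 0 q) := by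
        linear_combination k'.val 0 q * i00 + k'.val 1 q * i01
      rw [h4, Valuation.map_neg]
      exact hδ 1 q
    · have h4 : ((k⁻¹).val 1 0 * k'.val 0 q + (k⁻¹).val 1 1 * k'.val 1 q) * dt k =
          k.val 0 0 * k'.val 1 q - k.val 1 0 * k'.val 0 q := by
        linear_combination k'.val 0 q * i10 + k'.val 1 q * i11
      rw [h4]
      exact hδ 0 q
  rw [exp_mm, exp_dd, ← exp_add, exp_le_exp] at hM
  have d3 := dd_mul v k⁻¹ k'
  rw [dd_inv] at d3
  have e5 : ll v (k⁻¹ * k') = 2 * mm v (k⁻¹ * k') - dd v (k⁻¹ * k') := rfl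
  have h5 := ll_nonneg v (k⁻¹ * k')
  omega

/-- **the tree of a discrete valuation** -/
theorem isTree (ϖ : F) (hϖ : v ϖ = exp (-1)) : (Tr v).IsTree := by
  refine isTree_of_height (Tr v) (QuotientGroup.mk 1) (ht v) ?_ (ht_adj v) ?_ ?_
  · intro x hx
    obtain ⟨g, rfl⟩ := QuotientGroup.mk_surjective x
    have h1 := ht_mk v g
    rw [hx] at h1
    rw [QuotientGroup.eq, mul_one, mem_S, ll_inv, ← h1]
    rfl
  · intro x hx
    obtain ⟨g, rfl⟩ := QuotientGroup.mk_surjective x
    have h1 := ht_mk v g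
    obtain ⟨k, hk, hk'⟩ := exists_par v g ϖ hϖ (by omega)
    refine ⟨QuotientGroup.mk (g * k), ?_, ?_⟩
    · rw [adj_mk, inv_mul_cancel_left]
      exact hk
    · have h2 := ht_mk v (g * k)
      omega
  · intro x y y' hxy hxy' h1 h2
    obtain ⟨g, rfl⟩ := QuotientGroup.mk_surjective x
    obtain ⟨h, rfl⟩ := QuotientGroup.mk_surjective y
    obtain ⟨h', rfl⟩ := QuotientGroup.mk_surjective y'
    rw [adj_mk] at hxy hxy'
    have e1 := ht_mk v g
    have e2 := ht_mk v h
    have e3 := ht_mk v h'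
    rw [QuotientGroup.eq, mem_S]
    have h3 := uniq_par v g (g⁻¹ * h) (g⁻¹ * h') hxy hxy'
      (by rw [mul_inv_cancel_left]; omega) (by rw [mul_inv_cancel_left]; omega)
    have h4 : (g⁻¹ * h)⁻¹ * (g⁻¹ * h') = h⁻¹ * h' := by group
    rw [h4] at h3
    exact h3

end l

end Pool.Agent.Helper492_BT
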