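import Pool.Agent.Helper492_BT.Act

set_option autoImplicit false

/-!
`GL₂` of rings with one place at infinity: valuations on rings, relative version, Weierstrass curves.
-/

namespace Pool.Agent.Helper492_BT

open WithZero Pool.Agent.Y110.FJ Pool.Agent.R684.FP Pool.Agent.H694.TR Pool.Agent.Helper492_GE

section rel

variable {F A B : Type} [Field F] [CommRing A] [CommRing B] (v : Valuation F ℤᵐ⁰) (j : A →+* F)
  (β : A →+* B) {C : ∀ (G : Type) [Group G], Prop}

/-- **rings with one place at infinity**, relative version -/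
theorem rel_place (hC : ClosedE C) (hF : FbC C) (hS : ∀ (S : Type) [Group S], Group.IsSolvable S → C S)
    (ϖ : F) (hϖ : v ϖ = exp (-1)) (hj : Function.Injective j)
    (hu : ∀ u : Aˣ, v (j u) = 1) (hβ : ∀ a, v (j a) ≤ 1 → β a = 0 → a = 0)
    (H : Subgroup (Matrix (Fin 2) (Fin 2) B)ˣ) (hB : C H) :
    C ↥(H.comap (mapU β : (Matrix (Fin 2) (Fin 2) A)ˣ →* (Matrix (Fin 2) (Fin 2) B)ˣ)) := by
  letI := actV v j
  let G : Subgroup (Matrix (Fin 2) (Fin 2) A)ˣ :=
    H.comap (mapU β : (Matrix (Fin 2) (Fin 2) A)ˣ →* (Matrix (Fin 2) (Fin 2) B)ˣ)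
  let π : G →* H := ((mapU β).comp G.subtype).codRestrict H (fun x => x.2)
  refine act_tree hC hF hS ((treeAct v j hu ϖ hϖ).sub G) π hB ?_
  intro w x y hx hy hx1' hy1'
  obtain ⟨g, rfl⟩ := QuotientGroup.mk_surjective w
  have hx1 : mapU β (x : (Matrix (Fin 2) (Fin 2) A)ˣ) = 1 := congrArg Subtype.val hx1'
  have hy1 : mapU β (y : (Matrix (Fin 2) (Fin 2) A)ˣ) = 1 := congrArg Subtype.val hy1'
  have hsm : ∀ (γ : (Matrix (Fin 2) (Fin 2) A)ˣ),
      γ • (QuotientGroup.mk g : Vx v) = QuotientGroup.mk (mapU j γ * g) := fun γ => rfl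
  have hx2 : (x : (Matrix (Fin 2) (Fin 2) A)ˣ) • (QuotientGroup.mk g : Vx v) =
    QuotientGroup.mk g := hx
  have hy2 : (y : (Matrix (Fin 2) (Fin 2) A)ˣ) • (QuotientGroup.mk g : Vx v) =
    QuotientGroup.mk g := hy
  have hxy : ((x : (Matrix (Fin 2) (Fin 2) A)ˣ) * y) • (QuotientGroup.mk g : Vx v) =
      QuotientGroup.mk g := by
    rw [mul_smul, hy2, hx2]
  have hxy1 : mapU β ((x : (Matrix (Fin 2) (Fin 2) A)ˣ) * y) = 1 := by
    rw [map_mul, hx1, hy1, one_mul]
  rw [hsm] at hx2 hy2 hxy
  obtain ⟨tx, dx⟩ := unip v j β hu hβ g x hx2 hx1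
  obtain ⟨ty, dy⟩ := unip v j β hu hβ g y hy2 hy1
  obtain ⟨txy, -⟩ := unip v j β hu hβ g (x * y) hxy hxy1
  apply Subtype.ext
  change (x : (Matrix (Fin 2) (Fin 2) A)ˣ) * y = y * x
  apply mapU_inj hj
  rw [map_mul, map_mul]
  apply Units.ext
  rw [Units.val_mul, Units.val_mul]
  apply comm_of_unip
  · rw [mapU_val, mapU_val, ← map_add, tx, map_ofNat]
  · rw [mapU_val, mapU_val, mapU_val, mapU_val, ← map_mul, ← map_mul, ← map_sub,
      ← Matrix.det_fin_two, dx, map_one]
  · rw [mapU_val, mapU_val, ← map_add, ty, map_ofNat]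
  · rw [mapU_val, mapU_val, mapU_val, mapU_val, ← map_mul, ← map_mul, ← map_sub,
      ← Matrix.det_fin_two, dy, map_one]
  · rw [← Units.val_mul, ← map_mul, mapU_val, mapU_val, ← map_add, txy, map_ofNat]

end rel

/-- The valuation `v` of the domain `A` (`v a = exp (deg a)` for a degree function `deg`) is zero only
at `0`, there are two elements whose degrees differ by one, the units have degree zero, and `β` is
injective on the elements of degree at most zero. -/
structure Place {A B : Type} [CommRing A] [CommRing B] (v : Valuation A ℤᵐ⁰) (β : A →+* B) :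
    Prop where
  supp : ∀ a, v a = 0 → a = 0
  step : ∃ a b, a ≠ 0 ∧ v b = v a * exp 1
  unit : ∀ u : Aˣ, v (u : A) = 1
  inj : ∀ a, v a ≤ 1 → β a = 0 → a = 0

section val

variable {A B : Type} [CommRing A] [IsDomain A] [CommRing B] {v : Valuation A ℤᵐ⁰}
  {β : A →+* B} {C : ∀ (G : Type) [Group G], Prop}

theorem rel_val (h : Place v β) (hC : ClosedE C) (hF : FbC C)
    (hS : ∀ (S : Type) [Group S], Group.IsSolvable S → C S)
    (H : Subgroup (Matrix (Fin 2) (Fin 2) B)ˣ) (hB : C H) :
    C ↥(H.comap (mapU β : (Matrix (Fin 2) (Fin 2) A)ˣ →* (Matrix (Fin 2) (Fin 2) B)ˣ)) := by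
  have hS' : nonZeroDivisors A ≤ v.supp.primeCompl := by
    intro a ha h1
    have h2 : v a = 0 := (Valuation.mem_supp_iff v a).1 h1
    exact nonZeroDivisors.ne_zero ha (h.supp a h2)
  let w : Valuation (FractionRing A) ℤᵐ⁰ := v.extendToLocalization hS' (FractionRing A)
  have hw : ∀ a : A, w (algebraMap A (FractionRing A) a) = v a :=
    fun a => v.extendToLocalization_apply_map_apply hS' (FractionRing A) a
  obtain ⟨a, b, ha, hab⟩ := h.step
  refine rel_place w (algebraMap A (FractionRing A)) β hC hF hS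
    (algebraMap A (FractionRing A) a / algebraMap A (FractionRing A) b) ?_
    (IsFractionRing.injective A (FractionRing A)) ?_ ?_ H hB
  · rw [map_div₀, hw, hw, hab]
    have hva : v a ≠ 0 := fun h1 => ha (h.supp a h1)
    rw [div_mul_eq_div_div, div_self hva, one_div, exp_neg]
  · intro u
    rw [hw]
    exact h.unit u
  · intro x hx
    rw [hw] at hx
    exact h.inj x hx

theorem main_val (h : Place v β) (hC : ClosedE C) (hF : FbC C)
    (hS : ∀ (S : Type) [Group S], Group.IsSolvable S → C S)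
    (hB : C (Matrix (Fin 2) (Fin 2) B)ˣ) : C (Matrix (Fin 2) (Fin 2) A)ˣ := by
  have h1 : C (⊤ : Subgroup (Matrix (Fin 2) (Fin 2) B)ˣ) :=
    hC.base.of_injective _ _ (⊤ : Subgroup (Matrix (Fin 2) (Fin 2) B)ˣ).subtype
      Subtype.val_injective hB
  have h2 := rel_val h hC hF hS ⊤ h1
  let f : (Matrix (Fin 2) (Fin 2) A)ˣ →*
      ↥((⊤ : Subgroup (Matrix (Fin 2) (Fin 2) B)ˣ).comap
        (mapU β : (Matrix (Fin 2) (Fin 2) A)ˣ →* (Matrix (Fin 2) (Fin 2) B)ˣ)) :=
    (MonoidHom.id _).codRestrict _ (fun x => Subgroup.mem_top _)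
  exact hC.base.of_injective _ _ f (fun x y hxy => congrArg Subtype.val hxy) h2

end val

section deg

/-- the element of `ℤᵐ⁰` of a degree -/
noncomputable def ed (x : WithBot ℕ) : ℤᵐ⁰ := WithBot.recBotCoe 0 (fun n => exp (n : ℤ)) x

theorem ed_bot : ed ⊥ = 0 := rfl

theorem ed_coe (n : ℕ) : ed (n : WithBot ℕ) = exp (n : ℤ) := rfl

theorem ed_zero : ed 0 = 1 := by
  change exp ((0 : ℕ) : ℤ) = 1
  rw [Nat.cast_zero, exp_zero]

theorem ed_add (x y : WithBot ℕ) : ed (x + y) = ed x * ed y := by
  rcases x with _ | m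
  · exact (zero_mul _).symm
  · rcases y with _ | n
    · exact (mul_zero _).symm
    · change exp (((m + n : ℕ) : ℤ)) = exp (m : ℤ) * exp (n : ℤ)
      rw [← exp_add, Nat.cast_add]

theorem ed_mono {x y : WithBot ℕ} (h : x ≤ y) : ed x ≤ ed y := by
  rcases x with _ | m
  · exact zero_le
  · rcases y with _ | n
    · exact absurd h (not_le.2 (WithBot.bot_lt_coe m))
    · change exp (m : ℤ) ≤ exp (n : ℤ)
      rw [exp_le_exp]
      exact_mod_cast WithBot.coe_le_coe.1 h

theorem ed_eq_zero {x : WithBot ℕ} (h : ed x = 0) : x = ⊥ := by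
  rcases x with _ | m
  · rfl
  · exact absurd h exp_ne_zero

theorem le_of_ed_le_one {x : WithBot ℕ} (h : ed x ≤ 1) : x ≤ 0 := by
  rcases x with _ | m
  · exact bot_le
  · have h1 : exp (m : ℤ) ≤ exp (0 : ℤ) := by rwa [exp_zero]
    rw [exp_le_exp] at h1
    have h2 : m ≤ 0 := by exact_mod_cast h1
    exact WithBot.coe_le_coe.2 h2

theorem ed_max (x y : WithBot ℕ) : ed (max x y) = max (ed x) (ed y) := by
  rcases le_total x y with h | h
  · rw [max_eq_right h, max_eq_right (ed_mono h)]
  · rw [max_eq_left h, max_eq_left (ed_mono h)]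

end deg

section wei

open Polynomial WeierstrassCurve.Affine
open scoped Polynomial.Bivariate

variable {R : Type} [CommRing R] [IsDomain R] (W : WeierstrassCurve.Affine R)

theorem nsmul_mono {x y : WithBot ℕ} (h : x ≤ y) : 2 • x ≤ 2 • y := by
  rw [two_nsmul, two_nsmul]
  exact add_le_add h h

theorem nsmul_max {x y z : WithBot ℕ} (h : x ≤ max y z) : 2 • x ≤ max (2 • y) (2 • z) := by
  rcases le_total y z with h1 | h1
  · rw [max_eq_right h1] at h
    exact (nsmul_mono h).trans (le_max_right _ _)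
  · rw [max_eq_left h1] at h
    exact (nsmul_mono h).trans (le_max_left _ _)

/-- the valuation of the coordinate ring of a Weierstrass curve given by the pole order at infinity -/
noncomputable def vW : Valuation W.CoordinateRing ℤᵐ⁰ where
  toFun u := ed (Algebra.norm R[X] u).degree
  map_zero' := by
    have h1 := CoordinateRing.degree_norm_smul_basis (W' := W) 0 0
    rw [zero_smul, zero_smul, add_zero] at h1
    rw [h1]
    rfl
  map_one' := by
    rw [map_one, degree_one]
    exact ed_zero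
  map_mul' x y := by
    rw [map_mul, degree_mul, ed_add]
  map_add_le_max' x y := by
    obtain ⟨p, q, rfl⟩ := CoordinateRing.exists_smul_basis_eq x
    obtain ⟨p', q', rfl⟩ := CoordinateRing.exists_smul_basis_eq y
    have h1 : p • (1 : W.CoordinateRing) + q • CoordinateRing.mk W Y +
        (p' • (1 : W.CoordinateRing) + q' • CoordinateRing.mk W Y) =
        (p + p') • (1 : W.CoordinateRing) + (q + q') • CoordinateRing.mk W Y := by
      rw [add_smul, add_smul]
      abel
    rw [h1, CoordinateRing.degree_norm_smul_basis, CoordinateRing.degree_norm_smul_basis,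
      CoordinateRing.degree_norm_smul_basis, ← ed_max]
    apply ed_mono
    have h2 := nsmul_max (degree_add_le p p')
    have h3 := nsmul_max (degree_add_le q q')
    refine max_le (h2.trans (max_le ?_ ?_)) ?_
    · exact (le_max_left _ _).trans (le_max_left _ _)
    · exact (le_max_left _ _).trans (le_max_right _ _)
    · have h4 : 2 • (q + q').degree + 3 ≤ max (2 • q.degree) (2 • q'.degree) + 3 :=
        add_le_add h3 le_rfl
      rw [← max_add_add_right] at h4
      refine h4.trans (max_le ?_ ?_)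
      · exact (le_max_right _ _).trans (le_max_left _ _)
      · exact (le_max_right _ _).trans (le_max_right _ _)

theorem vW_apply (p q : R[X]) : vW W (p • (1 : W.CoordinateRing) + q • CoordinateRing.mk W Y) =
    ed (max (2 • p.degree) (2 • q.degree + 3)) :=
  congrArg ed (CoordinateRing.degree_norm_smul_basis (W' := W) p q)

theorem vW_le_one {u : W.CoordinateRing} (h : vW W u ≤ 1) : ∃ r : R, u = algebraMap R _ r := by
  obtain ⟨p, q, rfl⟩ := CoordinateRing.exists_smul_basis_eq u
  rw [vW_apply] at h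
  have h1 := le_of_ed_le_one h
  have h2 : 2 • p.degree ≤ 0 := (le_max_left _ _).trans h1
  have h3 : 2 • q.degree + 3 ≤ 0 := (le_max_right _ _).trans h1
  have hq : q = 0 := by
    by_contra hq
    rw [degree_eq_natDegree hq] at h3
    have h4 : 2 * q.natDegree + 3 ≤ 0 := WithBot.coe_le_coe.1 h3
    omega
  have hp : p.degree ≤ 0 := by
    by_cases hp : p = 0
    · rw [hp, degree_zero]
      exact bot_le
    · rw [degree_eq_natDegree hp] at h2 ⊢
      have h4 : 2 * p.natDegree ≤ 0 := WithBot.coe_le_coe.1 h2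
      have h5 : p.natDegree = 0 := by omega
      rw [h5]
      exact le_rfl
  refine ⟨p.coeff 0, ?_⟩
  rw [hq, zero_smul, add_zero]
  conv_lhs => rw [eq_C_of_degree_le_zero hp]
  rw [CoordinateRing.smul, mul_one]
  rfl

theorem vW_supp {u : W.CoordinateRing} (h : vW W u = 0) : u = 0 := by
  obtain ⟨p, q, rfl⟩ := CoordinateRing.exists_smul_basis_eq u
  rw [vW_apply] at h
  have h1 := ed_eq_zero h
  have h2 : 2 • p.degree ≤ ⊥ := (le_max_left _ _).trans h1.le
  have h3 : 2 • q.degree + 3 ≤ ⊥ := (le_max_right _ _).trans h1.le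
  have hq : q = 0 := by
    by_contra hq
    rw [degree_eq_natDegree hq] at h3
    exact absurd h3 (not_le.2 (WithBot.bot_lt_coe (2 * q.natDegree + 3)))
  have hp : p = 0 := by
    by_contra hp
    rw [degree_eq_natDegree hp] at h2
    exact absurd h2 (not_le.2 (WithBot.bot_lt_coe (2 * p.natDegree)))
  rw [hp, hq, zero_smul, zero_smul, add_zero]

theorem one_le_vW {u : W.CoordinateRing} (h : u ≠ 0) : 1 ≤ vW W u := by
  obtain ⟨p, q, rfl⟩ := CoordinateRing.exists_smul_basis_eq u
  rw [vW_apply, ← ed_zero]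
  apply ed_mono
  by_cases hp : p = 0
  · by_cases hq : q = 0
    · exact absurd (by rw [hp, hq, zero_smul, zero_smul, add_zero]) h
    · refine le_trans ?_ (le_max_right _ _)
      rw [degree_eq_natDegree hq]
      exact WithBot.coe_le_coe.2 (Nat.zero_le (2 * q.natDegree + 3))
  · refine le_trans ?_ (le_max_left _ _)
    rw [degree_eq_natDegree hp]
    exact WithBot.coe_le_coe.2 (Nat.zero_le (2 * p.natDegree))

/-- Weierstrass curves have one place at infinity -/
theorem place_wei {B : Type} [CommRing B] (β : W.CoordinateRing →+* B)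
    (hβ : Function.Injective (β.comp (algebraMap R W.CoordinateRing))) : Place (vW W) β where
  supp _ h := vW_supp W h
  step := by
    refine ⟨(X : R[X]) • (1 : W.CoordinateRing) + (0 : R[X]) • CoordinateRing.mk W Y,
      (0 : R[X]) • (1 : W.CoordinateRing) + (1 : R[X]) • CoordinateRing.mk W Y, ?_, ?_⟩
    · intro h0
      have h1 := vW_apply W X 0
      rw [h0, map_zero, degree_X, degree_zero] at h1
      have h2 := ed_eq_zero h1.symm
      have h3 : 2 • (1 : WithBot ℕ) ≤ ⊥ := (le_max_left _ _).trans h2.le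
      exact absurd h3 (not_le.2 (WithBot.bot_lt_coe 2))
    · rw [vW_apply, vW_apply, degree_X, degree_zero, degree_one]
      have h1 : max (2 • (1 : WithBot ℕ)) (2 • (⊥ : WithBot ℕ) + 3) = ((2 : ℕ) : WithBot ℕ) := rfl
      have h2 : max (2 • (⊥ : WithBot ℕ)) (2 • (0 : WithBot ℕ) + 3) = ((3 : ℕ) : WithBot ℕ) := rfl
      rw [h1, h2, ed_coe, ed_coe, ← exp_add]
      rfl
  unit u := by
    have h1 := one_le_vW W (u := (u : W.CoordinateRing)) u.ne_zero
    have h2 := one_le_vW W (u := ((u⁻¹ : W.CoordinateRingˣ) : W.CoordinateRing)) (u⁻¹).ne_zero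
    have h3 : vW W (u : W.CoordinateRing) * vW W ((u⁻¹ : W.CoordinateRingˣ) : W.CoordinateRing) = 1 := by
      rw [← map_mul, Units.mul_inv, map_one]
    apply le_antisymm _ h1
    rw [← h3]
    exact le_mul_of_one_le_right' h2
  inj a ha h := by
    obtain ⟨r, rfl⟩ := vW_le_one W ha
    have h1 : r = 0 := hβ (by rw [RingHom.comp_apply, h, map_zero])
    rw [h1, map_zero]

end wei

end Pool.Agent.Helper492_BT
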